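import Pool.Agent.Lib.MP_e4ee32_co.IP.Main

/-!
# MP_e4ee32_co, Q2: finite packings with contact vectors in a scaled copy of the integer lattice
-/

namespace Pool.Agent.Results.MP_e4ee32_co.IntegerEight

open Classical in
/-- Some ball of a finite packing has at most seven neighbours if all vectors between the centres
of touching balls lie, after an isometry `A`, in `(2 r / √N) ℤ³`, `0 < N ≤ 400`. -/
theorem result (P : Finset (EuclideanSpace ℝ (Fin 3))) (r : ℝ) (hr : 0 < r) (hP : P.Nonempty)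
    (hsep : ∀ p ∈ P, ∀ q ∈ P, p ≠ q → 2 * r ≤ dist p q)
    (N : ℕ) (h0 : 0 < N) (h1 : N ≤ 400)
    (A : EuclideanSpace ℝ (Fin 3) ≃ₗᵢ[ℝ] EuclideanSpace ℝ (Fin 3))
    (hA : ∀ p ∈ P, ∀ q ∈ P, dist p q = 2 * r →
      ∀ i, ∃ z : ℤ, √(N : ℝ) / (2 * r) * A (p - q) i = z) :
    ∃ p ∈ P, (P.filter fun q => dist p q = 2 * r).card ≤ 7 :=
  Pool.Agent.Lib.MPe4ee32.IP.eight P r hr hP hsep N h0 h1 A hA

end Pool.Agent.Results.MP_e4ee32_co.IntegerEight
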